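import Pool.Agent.TH306.N4.Main

set_option autoImplicit false

/-!
# Multi-point Seshadri constants of all nef divisors on surfaces (Biran–Szemberg)

Let `X` be a smooth (or only normal) projective surface over `ℂ` and `L` a nef divisor on `X`.
Write `L = A - B` with `A, B` very ample (take `B` very ample such that `A = L + B` is very ample);
then `X ⊂ P^a × P^b` with `A = O(1, 0)|_X`, `B = O(0, 1)|_X`.  We prove: there is `n₀` such that
for all `n ≥ n₀` the Seshadri constant of `L` at `n` very general points of `X` is equal to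
`√(L² / n)`.
-/

namespace Pool.Agent.Results.MP_ed661f_ag.AllNefDivisors

open MvPolynomial Filter Topology

/-- The index set of the variables `x_0, …, x_a, y_0, …, y_b`. -/
abbrev Index (a b : ℕ) : Type := Fin (a + 1) ⊕ Fin (b + 1)

/-- The bihomogeneous coordinate ring `ℂ[x_0, …, x_a, y_0, …, y_b]` of `P^a × P^b`. -/
abbrev Coord (a b : ℕ) : Type := MvPolynomial (Index a b) ℂ

/-- The variable `x_i`, of bidegree `(1, 0)`. -/
noncomputable abbrev xVar {a b : ℕ} (i : Fin (a + 1)) : Coord a b := X (Sum.inl i)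

/-- The variable `y_j`, of bidegree `(0, 1)`. -/
noncomputable abbrev yVar {a b : ℕ} (j : Fin (b + 1)) : Coord a b := X (Sum.inr j)

/-- The bidegrees of the variables. -/
def bidegree (a b : ℕ) : Index a b → ℕ × ℕ := Sum.elim (fun _ => (1, 0)) (fun _ => (0, 1))

/-- The vector space of the forms of bidegree `(u, v)`. -/
noncomputable def forms (a b u v : ℕ) : Submodule ℂ (Coord a b) :=
  weightedHomogeneousSubmodule ℂ (bidegree a b) (u, v)

variable {a b : ℕ}

/-- `P` is bihomogeneous: it contains the bihomogeneous components of its elements. -/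
def IsBihomogeneous (P : Ideal (Coord a b)) : Prop :=
  ∀ f ∈ P, ∀ d : ℕ × ℕ, weightedHomogeneousComponent (bidegree a b) d f ∈ P

/-- The projection `ℂ[x, y] → ℂ[x, y]/P`. -/
noncomputable def projection (P : Ideal (Coord a b)) : Coord a b →ₗ[ℂ] Coord a b ⧸ P :=
  (Ideal.Quotient.mkₐ ℂ P).toLinearMap

/-- The part of bidegree `(u, v)` of `ℂ[x, y]/P`. -/
noncomputable def piece (P : Ideal (Coord a b)) (u v : ℕ) : Submodule ℂ (Coord a b ⧸ P) :=
  (forms a b u v).map (projection P)

/-- The Hilbert function of `P`: the dimension of the part of bidegree `(u, v)` of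
`ℂ[x, y]/P`. -/
noncomputable def hilbertFunction (P : Ideal (Coord a b)) (u v : ℕ) : ℕ :=
  Module.finrank ℂ (piece P u v)

/-- `P` is the bihomogeneous prime ideal of an integral surface `X ⊂ P^a × P^b` with `A² = α`,
`A · B = β`, `B² = γ`, where `A = O(1, 0)|_X` and `B = O(0, 1)|_X`: by Riemann–Roch, for large
`u, v`, the Hilbert function is `(u A + v B)² / 2` up to terms of lower order, and this is required
along all rays `(p t, q t)`.  (As `A + B` is ample, `A² + 2 A · B + B² > 0`.) -/
structure IsSurface (P : Ideal (Coord a b)) (α β γ : ℕ) : Prop where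
  prime : P.IsPrime
  bihomogeneous : IsBihomogeneous P
  growth : ∀ p q : ℕ, 1 ≤ p → 1 ≤ q → Tendsto
    (fun t : ℕ => 2 * (hilbertFunction P (p * t) (q * t) : ℝ) / (t : ℝ) ^ 2) atTop
    (𝓝 ((α : ℝ) * p ^ 2 + 2 * β * p * q + γ * q ^ 2))
  pos : 0 < α + 2 * β + γ

/-- `Q` is the bihomogeneous prime ideal of an integral curve `C ⊂ P^a × P^b` with `A · C = dA`
and `B · C = dB`: for large `u, v` the Hilbert function is `(u A + v B) · C` up to a constant. -/
structure IsCurve (Q : Ideal (Coord a b)) (dA dB : ℝ) : Prop where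
  prime : Q.IsPrime
  bihomogeneous : IsBihomogeneous Q
  growth : ∀ p q : ℕ, 1 ≤ p → 1 ≤ q → Tendsto
    (fun t : ℕ => (hilbertFunction Q (p * t) (q * t) : ℝ) / (t : ℝ)) atTop
    (𝓝 (dA * p + dB * q))
  pos : 0 < dA + dB

/-- `L = A - B` is nef on `X`: `L · C = A · C - B · C ≥ 0` for all integral curves `C ⊂ X`. -/
def IsNef (P : Ideal (Coord a b)) : Prop :=
  ∀ (Q : Ideal (Coord a b)) (dA dB : ℝ), P ≤ Q → IsCurve Q dA dB → dB ≤ dA

/-- The ideal of the affine chart `x_i = 1`, `y_j = 1` of the scheme of `P`. -/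
noncomputable def chartIdeal (i : Fin (a + 1)) (j : Fin (b + 1)) (P : Ideal (Coord a b)) :
    Ideal (Coord a b) :=
  P ⊔ Ideal.span {xVar i - 1, yVar j - 1}

/-- `X` is normal: the coordinate rings of its affine charts are integrally closed.  (Every smooth
surface is normal.) -/
def IsNormal (P : Ideal (Coord a b)) : Prop :=
  ∀ i j, xVar i ∉ P → yVar j ∉ P → IsIntegrallyClosed (Coord a b ⧸ chartIdeal i j P)

/-- The maximal ideal of the point `w`. -/
noncomputable def pointIdeal (w : Index a b → ℂ) : Ideal (Coord a b) :=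
  Ideal.span (Set.range fun t => X t - C (w t))

/-- The length `dim(O_w / 𝔪_w^K)` of the local ring at `w` of the scheme of `Q`. -/
noncomputable def localLength (i : Fin (a + 1)) (j : Fin (b + 1)) (Q : Ideal (Coord a b))
    (w : Index a b → ℂ) (K : ℕ) : ℕ :=
  Module.finrank ℂ (Coord a b ⧸ (chartIdeal i j Q ⊔ pointIdeal w ^ K))

/-- `m` is the multiplicity at the point `w` (normalised by `x_i = 1`, `y_j = 1`) of the curve with
ideal `Q`: the Hilbert–Samuel multiplicity `lim dim(O_w / 𝔪_w^K) / K` of its local ring at `w`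
(it is `0` when `w` is not on the curve). -/
def IsMultiplicity (i : Fin (a + 1)) (j : Fin (b + 1)) (Q : Ideal (Coord a b))
    (w : Index a b → ℂ) (m : ℝ) : Prop :=
  Tendsto (fun K : ℕ => (localLength i j Q w K : ℝ) / K) atTop (𝓝 m)

/-- `w` lists `n` points of the chart `x_i = 1`, `y_j = 1` of `X`. -/
def IsChartTuple {n : ℕ} (i : Fin (a + 1)) (j : Fin (b + 1)) (P : Ideal (Coord a b))
    (w : Fin n → Index a b → ℂ) : Prop :=
  ∀ q, w q (Sum.inl i) = 1 ∧ w q (Sum.inr j) = 1 ∧ ∀ F ∈ P, eval (w q) F = 0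

/-- The value of a polynomial on `n`-tuples of points. -/
noncomputable def tupleValue {n : ℕ} (H : MvPolynomial (Fin n × Index a b) ℂ)
    (w : Fin n → Index a b → ℂ) : ℂ := eval (fun p => w p.1 p.2) H

/-- The `n`-tuple `w` of points of the chart of `X` lies outside the countably many closed subsets
`H k = 0`. -/
def IsVeryGeneral {n : ℕ} (i : Fin (a + 1)) (j : Fin (b + 1)) (P : Ideal (Coord a b))
    (H : ℕ → MvPolynomial (Fin n × Index a b) ℂ) (w : Fin n → Index a b → ℂ) : Prop :=
  IsChartTuple i j P w ∧ ∀ k, tupleValue (H k) w ≠ 0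

/-- The ratios `L · C / ∑ mult_{w_q} C`, where `L = A - B`, over the integral curves `C ⊂ X` through
at least one of the points `w q`.  The Seshadri constant `ε(X, L; w)` is the infimum of this
set. -/
def seshadriRatios {n : ℕ} (i : Fin (a + 1)) (j : Fin (b + 1))
    (P : Ideal (Coord a b)) (w : Fin n → Index a b → ℂ) : Set ℝ :=
  {x | ∃ (Q : Ideal (Coord a b)) (dA dB : ℝ) (m : Fin n → ℝ), P ≤ Q ∧ IsCurve Q dA dB ∧
    (∀ q, IsMultiplicity i j Q (w q) (m q)) ∧ 0 < ∑ q, m q ∧ x = (dA - dB) / ∑ q, m q}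

/-- **The Biran–Szemberg equality for all nef divisors on all normal projective surfaces.** Let
`X ⊂ P^a × P^b` be an integral normal surface such that `L = A - B` is nef.  Then
`L² = α - 2 β + γ ≥ 0`, some `x_i` and some `y_j` do not vanish on `X`, and there is `n₀` such that
for all `n ≥ n₀` and every chart `x_i = y_j = 1` of `X`: there are countably many polynomials `H_k`
on `n`-tuples of points such that some `n`-tuple of points of the chart has `H_k ≠ 0` for all `k`
(such tuples are called very general), and for every such `n`-tuple the points are distinct and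
the Seshadri constant of `L` at these points, the infimum (greatest lower bound) of
`L · C / ∑ mult_{w_q} C` over the integral curves `C` through at least one of them, is
`√(L² / n)`. -/
theorem result {a b : ℕ} (P : Ideal (Coord a b)) (α β γ : ℕ) (hX : IsSurface P α β γ)
    (hnormal : IsNormal P) (hnef : IsNef P) :
    2 * β ≤ α + γ ∧ (∃ i j, xVar i ∉ P ∧ yVar j ∉ P) ∧
    ∃ n₀ : ℕ, ∀ n, n₀ ≤ n → ∀ i j, xVar i ∉ P → yVar j ∉ P →
      ∃ H : ℕ → MvPolynomial (Fin n × Index a b) ℂ,
        (∃ w, IsVeryGeneral i j P H w) ∧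
        ∀ w, IsVeryGeneral i j P H w → Function.Injective w ∧
          IsGLB (seshadriRatios i j P w) (√(((α : ℝ) - 2 * β + γ) / n)) := by
  have hX' : Pool.Agent.TH279.GR.Surf P α β γ :=
    ⟨hX.prime, hX.bihomogeneous, hX.growth, by exact_mod_cast hX.pos⟩
  have hcurve : ∀ (Q : Ideal (Coord a b)) (dA dB : ℝ), Pool.Agent.TH279.GR.Curv Q dA dB ↔
      IsCurve Q dA dB := fun Q dA dB =>
    ⟨fun h => ⟨h.prime, h.hom, h.growth, h.pos⟩,
      fun h => ⟨h.prime, h.bihomogeneous, h.growth, h.pos⟩⟩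
  have hnef' : Pool.Agent.TH279.GR.Nef P := fun Q dA dB hPQ hQ =>
    hnef Q dA dB hPQ ((hcurve Q dA dB).1 hQ)
  obtain ⟨h0, h1, n₀, h2⟩ := Pool.Agent.TH306.N4.finalZ a b P α β γ hX' hnormal hnef'
  refine ⟨h0, h1, n₀, fun n hn i j hi hj => ?_⟩
  obtain ⟨H, h3, h4⟩ := h2 n hn i j hi hj
  refine ⟨H, h3, fun w hw => ⟨(h4 w hw.1 hw.2).1, ?_⟩⟩
  have hset : seshadriRatios i j P w = Pool.Agent.TH306.N4.ratios i j P w := by
    ext x
    constructor
    · rintro ⟨Q, dA, dB, m, hPQ, hQ, hm, h0, h⟩
      exact ⟨Q, dA, dB, m, hPQ, (hcurve Q dA dB).2 hQ, hm, h0, h⟩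
    · rintro ⟨Q, dA, dB, m, hPQ, hQ, hm, h0, h⟩
      exact ⟨Q, dA, dB, m, hPQ, (hcurve Q dA dB).1 hQ, hm, h0, h⟩
  rw [hset]
  exact (h4 w hw.1 hw.2).2

end Pool.Agent.Results.MP_ed661f_ag.AllNefDivisors
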