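import Pool.Agent.TH880.NF.Asm
import Pool.Agent.TH266.NS.Main
import Pool.Agent.TH552.NB.Plane1

set_option autoImplicit false

/-!
# Multi-point Seshadri constants of nef divisors at every number `n ≥ 4 L²` of very general points

Let `X ⊂ P^N` be an integral projective surface over `ℂ` and let `f_0, …, f_M` be forms of degree
`d` which define a birational map `φ` of `X` onto a surface of degree `δ` in `P^M`.  If `φ` is a
morphism, `L = φ^* O(1)` is nef and big with `L² = δ`, in general not ample (`φ` contracts curves);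
every semiample big `L` on a surface has a multiple `k L` of this kind.  For every `n ≥ 4 δ` (`n ≥ 9` if
`δ = 1`), for `n` very general points of `X` and for every integral curve `C ⊂ X`,
`∑ mult_{x_q} C ≤ √(n/δ) deg φ(C)`, with strict inequality if `n δ` is not a square; as
`deg φ(C) ≤ L·C`, this is `ε(X, L; x_1, …, x_n) ≥ √(L²/n)`.
-/

namespace Pool.Agent.Results.MP_ed661f_ag.NefAllLargeNumbers

open MvPolynomial Filter Topology

/-- The homogeneous coordinate ring `ℂ[x_0, …, x_N]` of `P^N`. -/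
abbrev Coord (N : ℕ) := MvPolynomial (Fin (N + 1)) ℂ

/-- The dimension of the degree `t` part of `ℂ[x_0, …, x_N]/P`. -/
noncomputable def hilbertFunction {N : ℕ} (P : Ideal (Coord N)) (t : ℕ) : ℕ :=
  Module.finrank ℂ
    ((homogeneousSubmodule (Fin (N + 1)) ℂ t).map (Ideal.Quotient.mkₐ ℂ P).toLinearMap)

/-- `P` is a homogeneous ideal: it contains the homogeneous components of its elements. -/
def IsHomogeneousIdeal {N : ℕ} (P : Ideal (Coord N)) : Prop :=
  ∀ f ∈ P, ∀ t, homogeneousComponent t f ∈ P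

/-- `I` is the homogeneous prime ideal of an integral surface of degree `δ` in `P^N`:
its Hilbert function is `δ t² / 2 + o(t²)`. -/
structure IsSurface {N : ℕ} (I : Ideal (Coord N)) (δ : ℝ) : Prop where
  prime : I.IsPrime
  homogeneous : IsHomogeneousIdeal I
  pos : 0 < δ
  growth : Tendsto (fun t : ℕ => 2 * (hilbertFunction I t : ℝ) / (t : ℝ) ^ 2) atTop (𝓝 δ)

/-- `P` is the homogeneous prime ideal of an integral curve `C ⊂ P^N` of degree `c`: the
Hilbert function of `C` is `c t + o(t)`. -/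
structure IsCurve {N : ℕ} (P : Ideal (Coord N)) (c : ℝ) : Prop where
  prime : P.IsPrime
  homogeneous : IsHomogeneousIdeal P
  pos : 0 < c
  growth : Tendsto (fun t : ℕ => (hilbertFunction P t : ℝ) / t) atTop (𝓝 c)

/-- The ideal in `ℂ[y_0, …, y_M]` of the (closed) image of the subvariety of `P` under
`φ = (f_0 : … : f_M)`: the polynomials `F` with `F(f_0, …, f_M) ∈ P`. -/
noncomputable def imageIdeal {N M : ℕ} (f : Fin (M + 1) → Coord N) (P : Ideal (Coord N)) :
    Ideal (Coord M) :=
  P.comap (aeval f : Coord M →ₐ[ℂ] Coord N)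

/-- `X` is the integral subvariety of `P^N` with homogeneous prime ideal `I`; the forms
`f_0, …, f_M` of degree `d` define a rational map `φ` of `X` to `P^M`, birational onto its image,
which is a surface of degree `δ`.  The inverse is given by forms `G_0, …, G_N`: on `X`,
`G_i(f_0, …, f_M) = u x_i` with a form `u` which does not vanish identically on `X`. -/
structure IsBirationalOntoSurface {N M : ℕ} (I : Ideal (Coord N)) (d : ℕ)
    (f : Fin (M + 1) → Coord N) (δ : ℝ) : Prop where
  prime : I.IsPrime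
  homogeneous : IsHomogeneousIdeal I
  form : ∀ j, (f j).IsHomogeneous d
  inverse : ∃ (a b : ℕ) (u : Coord N) (G : Fin (N + 1) → Coord M), b + 1 = a * d ∧
    u.IsHomogeneous b ∧ u ∉ I ∧ ∀ i, (G i).IsHomogeneous a ∧ u * X i - aeval f (G i) ∈ I
  image : IsSurface (imageIdeal f I) δ

/-- The closed image of the curve of `P` under `φ` has degree `e`, where `e = 0` if the curve is
contracted to a point (or lies in the common zero locus of `f_0, …, f_M`). -/
def HasImageDegree {N M : ℕ} (f : Fin (M + 1) → Coord N) (P : Ideal (Coord N)) (e : ℝ) : Prop :=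
  Tendsto (fun t : ℕ => (hilbertFunction (imageIdeal f P) t : ℝ) / t) atTop (𝓝 e)

/-- The maximal ideal of the point `w` of `ℂ^(N+1)`. -/
noncomputable def pointIdeal {N : ℕ} (w : Fin (N + 1) → ℂ) : Ideal (Coord N) :=
  Ideal.span (Set.range fun i => X i - C (w i))

/-- `m` is the multiplicity at the point `[w]` of the projective curve defined by `P`:
the Hilbert–Samuel multiplicity `lim 2 dim(ℂ[x]/(P + 𝔪_w^K)) / K²` at `w` of the affine cone
over the curve (it is `0` when `[w]` is not on the curve). -/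
def IsMultiplicity {N : ℕ} (P : Ideal (Coord N)) (w : Fin (N + 1) → ℂ) (m : ℝ) : Prop :=
  Tendsto (fun K : ℕ => 2 * (Module.finrank ℂ (Coord N ⧸ (P ⊔ (pointIdeal w) ^ K)) : ℝ) /
    (K : ℝ) ^ 2) atTop (𝓝 m)

/-- `w` lists representatives, normalised by `g = 1`, of `n` points of the projective
scheme defined by `I`. -/
def IsChartTuple {N n : ℕ} (I : Ideal (Coord N)) (g : Coord N)
    (w : Fin n → Fin (N + 1) → ℂ) : Prop :=
  ∀ q, eval (w q) g = 1 ∧ ∀ F ∈ I, eval (w q) F = 0

/-- **The Biran–Szemberg equality for the nef and big divisor `L = φ^* O(1)` with `L² = δ`, at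
every number `n ≥ 4 L²` (`n ≥ 9` if `L² = 1`) of very general points of every projective surface.** The very
general points are those outside the countably many closed subsets `H k = 0` of the `n`-tuples
of points of `X` with `g ≠ 0`; such `n`-tuples exist, and their points are distinct. -/
theorem result (δ n : ℕ) (hδ1 : 1 ≤ δ) (hn : 4 * δ ≤ n) (h9 : δ = 1 → 9 ≤ n) (N M d : ℕ) (I : Ideal (Coord N))
    (f : Fin (M + 1) → Coord N) (hX : IsBirationalOntoSurface I d f δ) :
    ∃ (g : Coord N) (H : ℕ → MvPolynomial (Fin n × Fin (N + 1)) ℂ),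
      g.IsHomogeneous d ∧
      (∃ w : Fin n → Fin (N + 1) → ℂ, IsChartTuple I g w ∧
        ∀ k, eval (fun p => w p.1 p.2) (H k) ≠ 0) ∧
      ∀ w : Fin n → Fin (N + 1) → ℂ, IsChartTuple I g w →
        (∀ k, eval (fun p => w p.1 p.2) (H k) ≠ 0) →
        (∀ q q', q ≠ q' → ∀ c : ℂ, w q ≠ c • w q') ∧
        (∀ (P : Ideal (Coord N)) (c e : ℝ), IsCurve P c → I ≤ P → HasImageDegree f P e →
          ∀ m : Fin n → ℝ, (∀ q, IsMultiplicity P (w q) (m q)) →
            ∑ q, m q ≤ √((n : ℝ) / δ) * e) ∧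
        (¬ IsSquare (δ * n) → ∀ (P : Ideal (Coord N)) (c : ℝ) (e : ℕ), 1 ≤ e → IsCurve P c →
          I ≤ P → HasImageDegree f P e →
          ∀ m : Fin n → ℕ, (∀ q, IsMultiplicity P (w q) (m q)) →
            ∑ q, (m q : ℝ) < √((n : ℝ) / δ) * e) := by
  have hn1 : 1 ≤ n := by omega
  have hPA : Pool.Agent.TH880.NB.PA n 0 δ := by
    rcases Nat.lt_or_ge 1 δ with h2 | h2
    · exact Pool.Agent.TH266.NS.PA_all h2 hn
    · obtain rfl : δ = 1 := by omega
      simpa using Pool.Agent.TH552.NB.PA_one (h9 rfl)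
  have hT : ∀ ε : ℝ, 0 < ε → Pool.Agent.TH880.NB.Tor δ n ε := fun ε hε =>
    Pool.Agent.TH880.NB.Tor.of_PA hδ1 hn1 hPA hε
  obtain ⟨a, b, u, G, hab, hub, huI, hG⟩ := hX.inverse
  have hB : Pool.Agent.TH880.NF.BirData I d a b f u G :=
    ⟨hX.form, hub, hab, huI, fun i => (hG i).2⟩
  obtain ⟨r, ℓ, hr, hrδ, hℓ, hall⟩ := Pool.Agent.TH880.NF.nef_general I hX.prime
    hX.homogeneous hB (fun i => (hG i).1) δ hX.image.pos hX.image.growth
  have hrδ' : r = δ := by exact_mod_cast hrδ
  subst hrδ'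
  obtain ⟨H, ⟨w0, hw0I, hw01, hw0H⟩, hH2⟩ := hall n hn1 hT
  have hgd : (aeval f ℓ : Coord N).IsHomogeneous d := by
    have := hℓ.aeval f hX.form
    rwa [mul_one] at this
  refine ⟨aeval f ℓ, H, hgd, ⟨w0, fun q => ⟨hw01 q, hw0I q⟩, hw0H⟩, fun w hw hH => ?_⟩
  obtain ⟨hinj, hineq⟩ := hH2 w (fun q => (hw q).2) (fun q => (hw q).1) hH
  have hmain : ∀ (P : Ideal (Coord N)) (c e : ℝ), IsCurve P c → I ≤ P → HasImageDegree f P e →
      ∀ m : Fin n → ℝ, (∀ q, IsMultiplicity P (w q) (m q)) →
        ∑ q, m q ≤ √((n : ℝ) / r) * e :=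
    fun P c e hC hIP he m hm => hineq P hC.prime hIP e he m hm
  refine ⟨fun q q' hqq c hc => hqq (hinj ?_), hmain, ?_⟩
  · -- proportional normalised representatives have the same image
    have h1 : ∀ {F : Coord N} {k : ℕ}, F.IsHomogeneous k →
        eval (w q) F = c ^ k * eval (w q') F := by
      intro F k hF
      rw [hc]
      exact Pool.Agent.TH880.NF.eval_smul hF c (w q')
    have h2 : c ^ d = 1 := by
      have := h1 hgd
      rw [(hw q).1, (hw q').1, mul_one] at this
      exact this.symm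
    funext j
    show eval (w q) (f j) = eval (w q') (f j)
    rw [h1 (hX.form j), h2, one_mul]
  · intro hsq P c e he1 hC hIP he m hm
    have h1 := hmain P c e hC hIP he (fun q => (m q : ℝ)) hm
    refine lt_of_le_of_ne h1 fun heq => hsq ?_
    -- `(δ ∑ m)² = δ n e²`
    have hδR : (0 : ℝ) < r := by exact_mod_cast hδ1
    have h2 : (((r * ∑ q, m q) ^ 2 : ℕ) : ℝ) = ((r * n * e ^ 2 : ℕ) : ℝ) := by
      have h3 : √((n : ℝ) / r) ^ 2 = (n : ℝ) / r := Real.sq_sqrt (by positivity)
      have h3' : (r : ℝ) * ((n : ℝ) / r) = n := by field_simp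
      have h3'' : (((r * ∑ q, m q) ^ 2 : ℕ) : ℝ) = ((r : ℝ) * ∑ q, (m q : ℝ)) ^ 2 := by
        push_cast; rfl
      rw [h3'', heq]
      push_cast
      linear_combination ((r : ℝ) ^ 2 * (e : ℝ) ^ 2) * h3 + (r : ℝ) * (e : ℝ) ^ 2 * h3'
    have h4 : (r * ∑ q, m q) ^ 2 = r * n * e ^ 2 := by exact_mod_cast h2
    have h5 : e ∣ (r * ∑ q, m q) := by
      rw [← Nat.pow_dvd_pow_iff two_ne_zero, h4]
      exact Dvd.intro_left _ rfl
    obtain ⟨c', hc'⟩ := h5
    refine ⟨c', ?_⟩
    rw [hc'] at h4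
    have h6 : e ^ 2 * (c' * c') = e ^ 2 * (r * n) := by
      calc e ^ 2 * (c' * c') = (e * c') ^ 2 := by ring
        _ = e ^ 2 * (r * n) := by rw [h4]; ring
    exact (Nat.eq_of_mul_eq_mul_left (by positivity) h6).symm

end Pool.Agent.Results.MP_ed661f_ag.NefAllLargeNumbers
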